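import Pool.Agent.Work.SF081200.FinAll
import Pool.Agent.Work.SF081200.CNT3

set_option autoImplicit false

namespace Pool.Agent.Results.MP_081200_nt.AlmostAllCubic

/-- The primitive non-principal cubic characters of conductor at most `Q`, as pairs consisting of
the conductor `f` and the character. -/
def CubicChars (Q : ℝ) : Set ((f : ℕ) × DirichletCharacter ℂ f) :=
  {x | 1 ≤ x.1 ∧ (x.1 : ℝ) ≤ Q ∧ x.2.IsPrimitive ∧ x.2 ^ 3 = 1 ∧ x.2 ≠ 1}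

/-- Those characters in `CubicChars Q` which induce, modulo some `q ≤ Q`, a character with
`|S(M, N)| > c Q ^ ((1 - δ) / n)` for some integer `M` and some `1 ≤ N ≤ Q ^ (1 / n)`. -/
def Exceptional (n : ℕ) (δ c Q : ℝ) : Set ((f : ℕ) × DirichletCharacter ℂ f) :=
  {x | x ∈ CubicChars Q ∧ ∃ (q : ℕ) (h : x.1 ∣ q), 1 ≤ q ∧ (q : ℝ) ≤ Q ∧
    ∃ (M : ℤ) (N : ℕ), 1 ≤ N ∧ (N : ℝ) ≤ Q ^ (1 / (n : ℝ)) ∧
      c * Q ^ ((1 - δ) / n) <
        ‖∑ a ∈ Finset.Ioc M (M + N), DirichletCharacter.changeLevel h x.2 (a : ZMod q)‖}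

/-- The bound of `C_n`, at all positions, for almost all cubic characters if `n ≤ 4`, and for a
positive proportion of all cubic characters for every `n`. -/
theorem result (n : ℕ) (hn : 1 ≤ n) : ∃ p : ℝ, 0 ≤ p ∧ p < 1 ∧ (n ≤ 4 → p = 0) ∧
    ∀ η : ℝ, p < η → ∃ δ : ℝ, 0 < δ ∧ ∃ c : ℝ, ∀ Q : ℝ, 3 ≤ Q →
      (CubicChars Q).Finite ∧
      ((Exceptional n δ c Q).ncard : ℝ) ≤ η * ((CubicChars Q).ncard : ℝ) := by
  obtain ⟨p, h0, h1, h2, h3⟩ := Pool.Agent.Work.SF.thmAll Pool.Agent.Work.SF.stmt_CNT3 n hn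
  refine ⟨p, h0, h1, h2, fun η hη => ?_⟩
  obtain ⟨δ, hδ, c, hc⟩ := h3 η hη
  exact ⟨δ, hδ, c, fun Q hQ =>
    ⟨Pool.Agent.Work.SF.cubicChars_finite Q (by linarith), hc Q (by linarith)⟩⟩

end Pool.Agent.Results.MP_081200_nt.AlmostAllCubic
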