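import Pool.Agent.Work.AV081200.Final

set_option autoImplicit false

namespace Pool.Agent.Results.MP_081200_nt.BurgessOnAverage

/-- The primitive non-principal cubic characters of conductor at most `Q`. -/
def CubicChars (Q : ℝ) : Set ((f : ℕ) × DirichletCharacter ℂ f) :=
  {x | 1 ≤ x.1 ∧ (x.1 : ℝ) ≤ Q ∧ x.2.IsPrimitive ∧ x.2 ^ 3 = 1 ∧ x.2 ≠ 1}

/-- Those characters in `CubicChars Q` which induce, modulo some `q ≤ Q`, a character with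
`|S(M, N)| > c Q ^ ((1 - δ) / n)` for some integer `M` and some `1 ≤ N ≤ Q ^ (1 / n)`. -/
def Exceptional (n : ℕ) (δ c Q : ℝ) : Set ((f : ℕ) × DirichletCharacter ℂ f) :=
  {x | x ∈ CubicChars Q ∧ ∃ (q : ℕ) (h : x.1 ∣ q), 1 ≤ q ∧ (q : ℝ) ≤ Q ∧
    ∃ (M : ℤ) (N : ℕ), 1 ≤ N ∧ (N : ℝ) ≤ Q ^ (1 / (n : ℝ)) ∧
      c * Q ^ ((1 - δ) / n) <
        ‖∑ a ∈ Finset.Ioc M (M + N), DirichletCharacter.changeLevel h x.2 (a : ZMod q)‖}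

/-- `Factored n ε Q f`: `f = g * h * r` where, for some real `B` in `[Q ^ ε, Q ^ (1 / n - ε)]`,
the primes dividing `r` are at most `B ^ (1 - ε)`, `h` is `1` or a prime at most `B ^ (2 - ε)`,
and `g * B ≤ Q ^ (4 / n - ε)`. -/
def Factored (n : ℕ) (ε Q : ℝ) (f : ℕ) : Prop :=
  ∃ (g h r : ℕ) (B : ℝ), f = g * h * r ∧ (h = 1 ∨ h.Prime) ∧
    Q ^ ε ≤ B ∧ B ≤ Q ^ (1 / (n : ℝ) - ε) ∧
    (∀ p : ℕ, p.Prime → p ∣ r → (p : ℝ) ≤ B ^ (1 - ε)) ∧ (h : ℝ) ≤ B ^ (2 - ε) ∧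
    (g : ℝ) * B ≤ Q ^ (4 / (n : ℝ) - ε)

/-- All but `c Q ^ (1 - δ')` of the primitive cubic characters whose conductor is `Factored`
satisfy the bound of `C_n`, together with all the characters they induce, at all positions. -/
theorem result (n : ℕ) (hn : 3 ≤ n) (ε : ℝ) (hε : 0 < ε) :
    ∃ δ : ℝ, 0 < δ ∧ ∃ δ' : ℝ, 0 < δ' ∧ ∃ c : ℝ, ∀ Q : ℝ, 3 ≤ Q →
      {x | x ∈ Exceptional n δ c Q ∧ Factored n ε Q x.1}.Finite ∧
      ({x | x ∈ Exceptional n δ c Q ∧ Factored n ε Q x.1}.ncard : ℝ) ≤ c * Q ^ (1 - δ') :=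
  Pool.Agent.Work.AV.final n hn ε hε

end Pool.Agent.Results.MP_081200_nt.BurgessOnAverage
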