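import Pool.Agent.Work.SF081200.FinA

set_option autoImplicit false

namespace Pool.Agent.Results.MP_081200_nt.FactoredConductors

/-- The bound of `C_n`, at all positions, when the conductor is the product of coprime `g` and `r`,
the primes of `r` are at most `R ≤ Q ^ (1 / n - ε)`, and `R ^ 2 * g ≤ Q ^ (4 / n - ε)`. -/
theorem result (n : ℕ) (hn : 1 ≤ n) (ε : ℝ) (hε : 0 < ε) :
    ∃ δ : ℝ, 0 < δ ∧ ∃ c : ℝ, ∀ Q : ℝ, 3 ≤ Q → ∀ (q : ℕ) [NeZero q], (q : ℝ) ≤ Q →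
      ∀ χ : DirichletCharacter ℂ q, χ ^ 3 = 1 → χ ≠ 1 →
      ∀ g r : ℕ, χ.conductor = g * r → g.Coprime r →
      ∀ R : ℝ, 1 ≤ R → R ≤ Q ^ (1 / (n : ℝ) - ε) →
      (∀ p : ℕ, p.Prime → p ∣ r → (p : ℝ) ≤ R) → R ^ 2 * g ≤ Q ^ (4 / (n : ℝ) - ε) →
      ∀ (M : ℤ) (N : ℕ), 1 ≤ N → (N : ℝ) ≤ Q ^ (1 / (n : ℝ)) →
        ‖∑ a ∈ Finset.Ioc M (M + N), χ (a : ZMod q)‖ ≤ c * Q ^ ((1 - δ) / n) := by
  obtain ⟨δ, hδ, _, c, _, h⟩ := Pool.Agent.Work.SF.thmA n hn ε hε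
  refine ⟨δ, hδ, c, ?_⟩
  intro Q hQ q _ hqQ χ h3 hne g r hf hgr R hR1 hR hp hRg M N _ hN
  have hf0 : χ.conductor ≠ 0 := χ.conductor_ne_zero
  have hg0 : 0 < g := by
    rcases Nat.eq_zero_or_pos g with h | h
    · rw [hf, h, zero_mul] at hf0; exact absurd rfl hf0
    · exact h
  have hdiv : χ.conductor / g = r := by
    rw [hf]
    exact Nat.mul_div_cancel_left _ hg0
  exact h Q (by linarith) q hqQ χ h3 hne g ⟨r, hf⟩ (by rw [hdiv]; exact hgr) R hR1 hR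
    (by rw [hdiv]; exact hp) hRg M N hN

end Pool.Agent.Results.MP_081200_nt.FactoredConductors
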