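import Pool.Agent.Work.LV.A6

/-!
# MP_081200_nt: power saving for short cubic character sums at almost all positions

For every `n ≥ 3` and `ε > 0` the bound of `C_n` holds for every non-principal cubic character
`χ` of modulus `q ≤ Q` and conductor `f`, outside of at most `c f^(1/2) Q^(ε - 2/n)` positions
`M` separated by `Q^(1/n)` modulo `f`; and it holds for all but `c Q^(-δ) H` positions in every
window of length `H ≥ Q^(1/2 - 1/n + ε)`.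
-/

set_option autoImplicit false

open Finset

namespace Pool.Agent.Results.MP_081200_nt.LargeValues

theorem result (n : ℕ) (hn : 3 ≤ n) (ε : ℝ) (hε : 0 < ε) :
    ∃ δ : ℝ, 0 < δ ∧ ∃ c : ℝ, ∀ Q : ℝ, 3 ≤ Q → ∀ (q : ℕ) [NeZero q], (q : ℝ) ≤ Q →
      ∀ χ : DirichletCharacter ℂ q, χ ^ 3 = 1 → χ ≠ 1 →
        (∀ 𝓜 : Finset ℤ,
          (∀ M ∈ 𝓜, ∀ M' ∈ 𝓜, M ≠ M' → ∀ k : ℤ,
            Q ^ (1 / (n : ℝ)) ≤ |(M : ℝ) - M' - k * χ.conductor|) →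
          (∀ M ∈ 𝓜, ∃ N : ℕ, 1 ≤ N ∧ (N : ℝ) ≤ Q ^ (1 / (n : ℝ)) ∧
            c * Q ^ ((1 - δ) / n) < ‖∑ a ∈ Ioc M (M + N), χ (a : ZMod q)‖) →
          (𝓜.card : ℝ) ≤ c * ((χ.conductor : ℝ) ^ (1 / 2 : ℝ) * Q ^ (ε - 2 / n))) ∧
        (∀ (x : ℤ) (H : ℕ), Q ^ (1 / 2 - 1 / (n : ℝ) + ε) ≤ H →
          ({M : ℤ | x < M ∧ M ≤ x + H ∧ ∃ N : ℕ, 1 ≤ N ∧ (N : ℝ) ≤ Q ^ (1 / (n : ℝ)) ∧
            c * Q ^ ((1 - δ) / n) < ‖∑ a ∈ Ioc M (M + N), χ (a : ZMod q)‖}.ncard : ℝ) ≤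
            c * (Q ^ (-δ) * H)) := by
  obtain ⟨δ, hδ, c, hc⟩ := Pool.Agent.Work.LV.thmD n (by omega) ε hε
  exact ⟨δ, hδ, c, fun Q hQ q _ hq χ h3 h1 => hc Q (by linarith) q hq χ h3 h1⟩

end Pool.Agent.Results.MP_081200_nt.LargeValues
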